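import Pool.Agent.H21.L.R_seed8.W401.Cheb.Main
import Pool.Agent.H16.HE.S8.W723.SecC.D1a

/-! Primes with a given Frobenius element: counting. -/

set_option autoImplicit false

namespace Pool.Agent.W723.SecC

open Filter Topology Finset NumberField
open Pool.Agent.W401.Cheb

lemma sum_ind_prime (N : ℕ) :
    ∑ n ∈ range (N + 1), Set.indicator {p | p.Prime} (fun _ => (1 : ℝ)) n = Nat.primeCounting N := by
  unfold Nat.primeCounting Nat.primeCounting'
  rw [Nat.count_eq_card_filter_range, Finset.card_filter]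
  push_cast
  refine sum_congr rfl fun n _ => ?_
  by_cases hn : n.Prime
  · rw [Set.indicator_of_mem (by exact hn), if_pos hn]
  · rw [Set.indicator_of_notMem (by exact hn), if_neg hn]

lemma sum_pr (a : ℕ → ℝ) (N : ℕ) :
    ∑ p ∈ pr N, a p = ∑ n ∈ range (N + 1), Set.indicator {p | p.Prime} a n := by
  unfold pr
  rw [sum_filter]
  refine sum_congr rfl fun n _ => ?_
  by_cases hn : n.Prime
  · rw [Set.indicator_of_mem (by exact hn), if_pos hn]
  · rw [Set.indicator_of_notMem (by exact hn), if_neg hn]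

/-- the primes not dividing `m` with Frobenius `τ` -/
def frobSet (L : Type) [Field L] [NumberField L] (τ : Gal(L/ℚ)) (m : ℕ) : Set ℕ :=
  {p | p.Prime ∧ ¬ p ∣ m ∧ xp L τ p ≠ 0}

lemma xp_le (L : Type) [Field L] [NumberField L] [IsGalois ℚ L] (τ : Gal(L/ℚ)) (p : ℕ)
    (hp : p.Prime) (h : haveI : Fact p.Prime := ⟨hp⟩; TorAt L p) :
    xp L τ p ≤ Nat.card Gal(L/ℚ) := by
  haveI : Fact p.Prime := ⟨hp⟩
  unfold xp
  rw [dif_pos hp]
  rw [← h.1]
  haveI := finite_hom h
  exact Nat.card_le_card_of_injective (fun x => x.1) Subtype.val_injective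

lemma count (L : Type) [Field L] [NumberField L] [IsGalois ℚ L] (τ : Gal(L/ℚ)) (m : ℕ)
    (hm : 0 < m) : ∃ δ C : ℝ, 0 < δ ∧ ∀ N : ℕ,
      δ * (∑ n ∈ range N, Set.indicator {p | p.Prime} (fun _ => (1 : ℝ)) n) - C ≤
      ∑ n ∈ range N, Set.indicator (frobSet L τ m) (fun _ => (1 : ℝ)) n := by
  obtain ⟨D, hD, hT⟩ := torsor L
  have hch := chebotarev L τ
  have h1 : ∀ᶠ N : ℕ in atTop, (1 / 2 : ℝ) <
      (∑ p ∈ pr N, (xp L τ p : ℝ)) / (Nat.primeCounting N : ℝ) :=
    hch.eventually (lt_mem_nhds (by norm_num))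
  obtain ⟨N0, hN0⟩ := eventually_atTop.mp h1
  set h : ℝ := (Nat.card Gal(L/ℚ) : ℝ) with hh
  have hpos : 0 < h := by
    rw [hh]; exact_mod_cast Nat.card_pos
  set C1 : ℝ := ∑ p ∈ (D * m).divisors, (xp L τ p : ℝ) with hC1
  have hC1n : 0 ≤ C1 := sum_nonneg fun _ _ => Nat.cast_nonneg _
  have hmain : ∀ N : ℕ, (∑ p ∈ pr N, (xp L τ p : ℝ)) ≤
      h * (∑ n ∈ range (N + 1), Set.indicator (frobSet L τ m) (fun _ => (1 : ℝ)) n) + C1 := by
    intro N
    rw [sum_pr]
    have h2 : ∀ n ∈ range (N + 1), Set.indicator {p | p.Prime} (fun p => (xp L τ p : ℝ)) n ≤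
        h * Set.indicator (frobSet L τ m) (fun _ => (1 : ℝ)) n +
          (if n ∈ (D * m).divisors then (xp L τ n : ℝ) else 0) := by
      intro n _
      by_cases hn : n.Prime
      · rw [Set.indicator_of_mem (by exact hn)]
        by_cases hd : n ∣ D * m
        · have h3 : n ∈ (D * m).divisors := Nat.mem_divisors.mpr ⟨hd, by positivity⟩
          rw [if_pos h3]
          have h4 : 0 ≤ h * Set.indicator (frobSet L τ m) (fun _ => (1 : ℝ)) n :=
            mul_nonneg hpos.le (Set.indicator_nonneg (fun _ _ => zero_le_one) _)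
          linarith
        · have hnD : ¬ n ∣ D := fun h => hd (h.mul_right m)
          have hnm : ¬ n ∣ m := fun h => hd (h.mul_left D)
          have h3 : n ∉ (D * m).divisors := fun h => hd (Nat.mem_divisors.mp h).1
          rw [if_neg h3, add_zero]
          by_cases h5 : xp L τ n = 0
          · rw [h5, Nat.cast_zero]
            exact mul_nonneg hpos.le (Set.indicator_nonneg (fun _ _ => zero_le_one) _)
          · rw [Set.indicator_of_mem (show n ∈ frobSet L τ m from ⟨hn, hnm, h5⟩), mul_one, hh]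
            haveI : Fact n.Prime := ⟨hn⟩
            exact_mod_cast xp_le L τ n hn (hT n hnD)
      · rw [Set.indicator_of_notMem (by exact hn)]
        have h4 : 0 ≤ h * Set.indicator (frobSet L τ m) (fun _ => (1 : ℝ)) n :=
          mul_nonneg hpos.le (Set.indicator_nonneg (fun _ _ => zero_le_one) _)
        have h5 : (0 : ℝ) ≤ if n ∈ (D * m).divisors then (xp L τ n : ℝ) else 0 := by
          split_ifs
          · exact Nat.cast_nonneg _
          · exact le_refl _
        linarith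
    refine (sum_le_sum h2).trans ?_
    rw [sum_add_distrib, ← mul_sum]
    have h6 : ∑ n ∈ range (N + 1), (if n ∈ (D * m).divisors then (xp L τ n : ℝ) else 0) ≤ C1 := by
      rw [← sum_filter, hC1]
      refine sum_le_sum_of_subset_of_nonneg ?_ fun _ _ _ => Nat.cast_nonneg _
      intro n hn
      exact (mem_filter.mp hn).2
    linarith
  have hall : ∀ N : ℕ, (1 / 2 : ℝ) * Nat.primeCounting N - (N0 + 1) - C1 ≤
      h * (∑ n ∈ range (N + 1), Set.indicator (frobSet L τ m) (fun _ => (1 : ℝ)) n) := by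
    intro N
    by_cases hN : N0 ≤ N
    · have h3 := hN0 N hN
      have h4 : (0 : ℝ) < Nat.primeCounting N := by
        rcases (Nat.cast_nonneg (α := ℝ) (Nat.primeCounting N)).lt_or_eq with h | h
        · exact h
        · rw [← h, div_zero] at h3
          norm_num at h3
      rw [lt_div_iff₀ h4] at h3
      have h5 := hmain N
      have h6 : (0 : ℝ) ≤ N0 := Nat.cast_nonneg _
      linarith
    · push Not at hN
      have h3 : Nat.primeCounting N ≤ N + 1 := by
        unfold Nat.primeCounting Nat.primeCounting'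
        exact Nat.count_le _
      have h4 : (Nat.primeCounting N : ℝ) ≤ N0 + 1 := by
        have : Nat.primeCounting N ≤ N0 + 1 := h3.trans (by omega)
        exact_mod_cast this
      have h5 : 0 ≤ h * (∑ n ∈ range (N + 1), Set.indicator (frobSet L τ m) (fun _ => (1 : ℝ)) n) :=
        mul_nonneg hpos.le (sum_nonneg fun _ _ => Set.indicator_nonneg (fun _ _ => zero_le_one) _)
      have h6 : (0 : ℝ) ≤ N0 := Nat.cast_nonneg _
      linarith
  refine ⟨1 / (2 * h), (N0 + 1 + C1) / h, by positivity, fun N => ?_⟩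
  rcases N with _ | N
  · simp only [range_zero, sum_empty, mul_zero, zero_sub, Left.neg_nonpos_iff]
    positivity
  · rw [sum_ind_prime]
    have h3 := hall N
    rw [show (1 / (2 * h)) * (Nat.primeCounting N : ℝ) - (N0 + 1 + C1) / h =
      ((1 / 2 : ℝ) * Nat.primeCounting N - (N0 + 1) - C1) / h by field_simp; ring]
    rw [div_le_iff₀ hpos, mul_comm _ h]
    exact h3

/-- many places: the product becomes small -/
lemma many {ι : Type*} (S : Set ℕ) (hSp : ∀ p ∈ S, p.Prime)
    (hS : ∀ B : ℝ, ∃ N : ℕ, B ≤ ∑ n ∈ range N,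
      Set.indicator S (fun _ => (1 : ℝ)) n * (1 / ((n : ℝ) + 1)))
    (norm : ι → ℕ) (P : ι → Prop) (hv : ∀ p ∈ S, ∃ i, P i ∧ norm i = p) (ε : ℝ) (hε : 0 < ε) :
    ∃ T : Finset ι, (∀ i ∈ T, P i) ∧
      ∏ i ∈ T, (1 - (1 / (norm i : ℝ) - 1 / (norm i : ℝ) ^ 2)) < ε := by
  classical
  have hι : Nonempty ι ∨ ¬ ∃ p, p ∈ S := by
    by_cases h : ∃ p, p ∈ S
    · obtain ⟨p, hp⟩ := h
      obtain ⟨i, _⟩ := hv p hp
      exact Or.inl ⟨i⟩
    · exact Or.inr h
  have hne : ∃ p, p ∈ S := by
    by_contra h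
    push Not at h
    obtain ⟨N, hN⟩ := hS 1
    have : ∑ n ∈ range N, Set.indicator S (fun _ => (1 : ℝ)) n * (1 / ((n : ℝ) + 1)) = 0 :=
      sum_eq_zero fun n _ => by rw [Set.indicator_of_notMem (h n), zero_mul]
    rw [this] at hN
    norm_num at hN
  haveI : Nonempty ι := hι.resolve_right (fun h => h hne)
  choose! v hvP hvn using hv
  obtain ⟨N, hN⟩ := hS (2 * (- Real.log ε + 1))
  set U : Finset ℕ := (range N).filter (fun n => n ∈ S) with hU
  have hinj : Set.InjOn v (U : Set ℕ) := by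
    intro a ha b hb hab
    have ha' : a ∈ S := (mem_filter.mp (mem_coe.mp ha)).2
    have hb' : b ∈ S := (mem_filter.mp (mem_coe.mp hb)).2
    rw [← hvn a ha', ← hvn b hb', hab]
  refine ⟨U.image v, ?_, ?_⟩
  · intro i hi
    obtain ⟨p, hp, rfl⟩ := mem_image.mp hi
    exact hvP p (mem_filter.mp hp).2
  · rw [prod_image hinj]
    have h1 : ∏ p ∈ U, (1 - (1 / (norm (v p) : ℝ) - 1 / (norm (v p) : ℝ) ^ 2)) =
        ∏ p ∈ U, (1 - (1 / (p : ℝ) - 1 / (p : ℝ) ^ 2)) := by
      refine prod_congr rfl fun p hp => ?_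
      rw [hvn p (mem_filter.mp hp).2]
    rw [h1]
    have hp2 : ∀ p ∈ U, (2 : ℝ) ≤ p := fun p hp => by
      exact_mod_cast (hSp p (mem_filter.mp hp).2).two_le
    refine (prod_small U (fun p => 1 / (p : ℝ) - 1 / (p : ℝ) ^ 2) fun p hp => ?_).trans_lt ?_
    · have h2 := hp2 p hp
      have h3 : 1 / (p : ℝ) ≤ 1 := by rw [div_le_one (by linarith)]; linarith
      have h4 : 0 ≤ 1 / (p : ℝ) ^ 2 := by positivity
      linarith
    · have h2 : ∑ n ∈ range N, Set.indicator S (fun _ => (1 : ℝ)) n * (1 / ((n : ℝ) + 1)) ≤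
          2 * ∑ p ∈ U, (1 / (p : ℝ) - 1 / (p : ℝ) ^ 2) := by
        rw [hU, sum_filter, mul_sum]
        refine sum_le_sum fun n hn => ?_
        by_cases hnS : n ∈ S
        · rw [Set.indicator_of_mem hnS, if_pos hnS, one_mul]
          have h3 : (2 : ℝ) ≤ n := by exact_mod_cast (hSp n hnS).two_le
          rw [show 2 * (1 / (n : ℝ) - 1 / (n : ℝ) ^ 2) = (2 * n - 2) / (n : ℝ) ^ 2 by
            field_simp]
          rw [div_le_div_iff₀ (by linarith) (by positivity)]
          nlinarith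
        · rw [Set.indicator_of_notMem hnS, if_neg hnS]
          simp
      have h3 : - Real.log ε + 1 ≤ ∑ p ∈ U, (1 / (p : ℝ) - 1 / (p : ℝ) ^ 2) := by linarith
      calc Real.exp (- ∑ p ∈ U, (1 / (p : ℝ) - 1 / (p : ℝ) ^ 2))
          < Real.exp (Real.log ε) := Real.exp_lt_exp.mpr (by linarith)
        _ = ε := Real.exp_log hε

end Pool.Agent.W723.SecC
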