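import Mathlib

/-! A Galois number field containing the roots of a polynomial. -/

set_option autoImplicit false

namespace Pool.Agent.W723.SecC

open Polynomial

universe u

lemma exists_L_aux (Ω : Type) [Field Ω] [Algebra ℚ Ω] [IsAlgClosure ℚ Ω] [IsAlgClosed Ω]
    [IsGalois ℚ Ω]
    (K : Type u) [Field K] [NumberField K] (f : K[X]) (hf : f ≠ 0)
    (σ : AlgebraicClosure K ≃ₐ[K] AlgebraicClosure K)
    (hσ : ∀ θ : AlgebraicClosure K, aeval θ f = 0 → σ θ ≠ θ) :
    ∃ (L : Type) (_ : Field L) (_ : NumberField L) (_ : IsGalois ℚ L) (i : K →+* L)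
      (τ : L ≃ₐ[ℚ] L), (∀ x, τ (i x) = i x) ∧ (∀ θ, f.eval₂ i θ = 0 → τ θ ≠ θ) ∧
        (f.map i).Splits := by
  classical
  have : Algebra.IsAlgebraic ℚ (AlgebraicClosure K) := Algebra.IsAlgebraic.trans ℚ K _
  have : IsAlgClosure ℚ (AlgebraicClosure K) := ⟨inferInstance, inferInstance⟩
  let e : AlgebraicClosure K ≃ₐ[ℚ] Ω := IsAlgClosure.equiv ℚ (AlgebraicClosure K) Ω
  let j : K →ₐ[ℚ] Ω := (e : AlgebraicClosure K →ₐ[ℚ] Ω).comp
    ((Algebra.ofId K (AlgebraicClosure K)).restrictScalars ℚ)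
  have hj : ∀ x, j x = e (algebraMap K (AlgebraicClosure K) x) := fun x => rfl
  let τ₀ : Ω ≃ₐ[ℚ] Ω := e.symm.trans ((σ.restrictScalars ℚ).trans e)
  have hτ₀ : ∀ x, τ₀ x = e (σ (e.symm x)) := fun x => rfl
  let b := Module.finBasis ℚ K
  let s : Set Ω := (Set.range fun k => j (b k)) ∪ {θ : Ω | (f.map (j : K →+* Ω)).IsRoot θ}
  have hs : s.Finite := by
    refine (Set.finite_range _).union ?_
    have h0 : f.map (j : K →+* Ω) ≠ 0 := by
      rwa [Ne, Polynomial.map_eq_zero]
    exact Polynomial.finite_setOfPred_isRoot h0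
  have : Finite s := hs
  let LL := FiniteGaloisIntermediateField.adjoin ℚ s
  have hsub : s ⊆ LL.toIntermediateField := FiniteGaloisIntermediateField.subset_adjoin ℚ s
  let L := LL.toIntermediateField
  have hjL : ∀ x, j x ∈ L := by
    intro x
    rw [← b.sum_repr x, map_sum]
    refine sum_mem fun k _ => ?_
    rw [map_smul]
    exact L.smul_mem (hsub (Or.inl ⟨k, rfl⟩))
  have hEq : (DivisionRing.toRatAlgebra : Algebra ℚ L) = L.algebra' := Subsingleton.elim _ _
  have hga : IsGalois ℚ L := by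
    have h := LL.isGalois
    rw [hEq]
    exact h
  have hn : NumberField L :=
    { to_charZero := inferInstance
      to_finiteDimensional := by
        have h := LL.finiteDimensional
        rw [hEq]
        exact h }
  have hnorm : @Normal ℚ L _ _ L.algebra' := by
    have h := LL.isGalois
    exact h.to_normal
  let i : K →+* L := (j : K →+* Ω).codRestrict L hjL
  have hi : ∀ x, (i x : Ω) = j x := fun x => rfl
  have hic : (algebraMap L Ω).comp i = (j : K →+* Ω) := by
    ext x; rfl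
  have hτex : ∃ τ' : L ≃+* L, ∀ x : L, ((τ' x : L) : Ω) = τ₀ x := by
    letI : Algebra ℚ L := L.algebra'
    haveI : Normal ℚ L := hnorm
    exact ⟨(τ₀.restrictNormal L).toRingEquiv, fun x => τ₀.restrictNormal_commutes L x⟩
  obtain ⟨τ', hτ'⟩ := hτex
  let τ : L ≃ₐ[ℚ] L := AlgEquiv.ofRingEquiv (f := τ') (fun r => by
    rw [eq_ratCast, map_ratCast])
  have hτ : ∀ x : L, (τ x : Ω) = τ₀ x := hτ'
  have hmap : f.map (j : K →+* Ω) = (f.map i).map (algebraMap L Ω) := by
    rw [Polynomial.map_map, hic]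
  refine ⟨L, inferInstance, inferInstance, inferInstance, i, τ, ?_, ?_, ?_⟩
  · intro x
    apply Subtype.ext
    rw [hτ, hi, hτ₀, hj]
    simp
  · intro θ hθ h
    have h1 : aeval (e.symm (θ : Ω)) f = 0 := by
      apply e.injective
      rw [map_zero]
      have h2 : e (aeval (e.symm (θ : Ω)) f) = f.eval₂ (j : K →+* Ω) (θ : Ω) := by
        have h3 := Polynomial.hom_eval₂ f (algebraMap K (AlgebraicClosure K))
          (e : AlgebraicClosure K →+* Ω) (e.symm (θ : Ω))
        rw [aeval_def]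
        refine h3.trans ?_
        have h4 : (e : AlgebraicClosure K →+* Ω) (e.symm (θ : Ω)) = (θ : Ω) := e.apply_symm_apply _
        rw [h4]
        rfl
      rw [h2, ← hic]
      have h5 := Polynomial.hom_eval₂ f i (algebraMap L Ω) θ
      rw [hθ, map_zero] at h5
      exact h5.symm
    apply hσ _ h1
    apply e.injective
    have h3 := hτ θ
    rw [h, hτ₀] at h3
    rw [← h3]
    simp
  · have h6 : (f.map (j : K →+* Ω)).Splits := IsAlgClosed.splits _
    rw [hmap] at h6
    refine Splits.of_splits_map (algebraMap L Ω) h6 ?_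
    intro θ hθ
    rw [← hmap] at hθ
    have h7 : (f.map (j : K →+* Ω)).IsRoot θ := Polynomial.isRoot_of_mem_roots hθ
    exact ⟨⟨θ, hsub (Or.inr h7)⟩, rfl⟩

lemma exists_L (K : Type u) [Field K] [NumberField K] (f : K[X]) (hf : f ≠ 0)
    (σ : AlgebraicClosure K ≃ₐ[K] AlgebraicClosure K)
    (hσ : ∀ θ : AlgebraicClosure K, aeval θ f = 0 → σ θ ≠ θ) :
    ∃ (L : Type) (_ : Field L) (_ : NumberField L) (_ : IsGalois ℚ L) (i : K →+* L)
      (τ : L ≃ₐ[ℚ] L), (∀ x, τ (i x) = i x) ∧ (∀ θ, f.eval₂ i θ = 0 → τ θ ≠ θ) ∧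
        (f.map i).Splits :=
  @exists_L_aux (AlgebraicClosure ℚ) _ (AlgebraicClosure.instAlgebra ℚ) inferInstance inferInstance
    inferInstance K _ _ f hf σ hσ

end Pool.Agent.W723.SecC
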