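import Pool.Agent.H16.HE.S8.W623.SecC.Defs
import Pool.Agent.H16.HE.S8.W723.SecC.D1b
import Pool.Agent.H16.HE.S8.W723.SecC.D1c

/-! Part D1: many primes without roots. -/

set_option autoImplicit false

namespace Pool.Agent.W723.SecC

open Polynomial NumberField IsDedekindDomain
open Pool.Agent.W401.Cheb

universe u

lemma nz (L : Type) [Field L] [NumberField L] (E : 𝓞 L) (hE : E ≠ 0) :
    ∃ m : ℕ, 0 < m ∧ ∀ (k : Type) [Field k] (φ : 𝓞 L →+* k), (m : k) ≠ 0 → φ E ≠ 0 := by
  refine ⟨Ideal.absNorm (Ideal.span {E}), ?_, ?_⟩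
  · rw [Nat.pos_iff_ne_zero, Ne, Ideal.absNorm_eq_zero_iff, Ideal.span_singleton_eq_bot]
    exact hE
  · intro k _ φ hm h0
    obtain ⟨y, hy⟩ := Ideal.mem_span_singleton.mp (Ideal.absNorm_mem (Ideal.span {E}))
    apply hm
    rw [← map_natCast φ, hy, map_mul, h0, zero_mul]

lemma absNorm_ker (K : Type u) [Field K] [NumberField K] (p : ℕ) [Fact p.Prime] (k : Type)
    [Field k] [CharP k p] (ψ : 𝓞 K →+* k) (h : ∀ x, ψ x ^ p = ψ x) :
    Ideal.absNorm (RingHom.ker ψ) = p := by
  classical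
  have hp := (Fact.out : p.Prime)
  rw [Ideal.absNorm_apply, Submodule.cardQuot_apply]
  set R := 𝓞 K ⧸ RingHom.ker ψ with hR
  let f : R →+* k := RingHom.kerLift ψ
  have hf : Function.Injective f := RingHom.kerLift_injective ψ
  have hfp : ∀ x : R, f x ^ p = f x := by
    intro x
    obtain ⟨y, rfl⟩ := Ideal.Quotient.mk_surjective x
    exact h y
  have hP : (X ^ p - X : k[X]) ≠ 0 := FiniteField.X_pow_card_sub_X_ne_zero k hp.one_lt
  have hdeg : (X ^ p - X : k[X]).natDegree = p :=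
    FiniteField.X_pow_card_sub_X_natDegree_eq k hp.one_lt
  let F : Finset k := (X ^ p - X : k[X]).roots.toFinset
  have hmem : ∀ x : R, f x ∈ F := by
    intro x
    rw [Multiset.mem_toFinset, mem_roots hP, IsRoot.def, eval_sub, eval_pow, eval_X, hfp, sub_self]
  have hFc : F.card ≤ p := by
    refine (Multiset.toFinset_card_le _).trans ?_
    refine (card_roots' _).trans ?_
    rw [hdeg]
  let fF : R → F := fun x => ⟨f x, hmem x⟩
  have hfF : Function.Injective fF := fun a b hab => hf (by simpa [fF] using hab)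
  have hfin : Finite R := Finite.of_injective fF hfF
  have hle : Nat.card R ≤ p := by
    refine (Nat.card_le_card_of_injective fF hfF).trans ?_
    rw [Nat.card_eq_fintype_card, Fintype.card_coe]
    exact hFc
  have hchar : CharP R p := (RingHom.charP_iff f hf p).mpr inferInstance
  have hge : p ≤ Nat.card R := by
    have h1 := Nat.card_le_card_of_injective (ZMod.castHom (dvd_refl p) R)
      (ZMod.castHom_injective R)
    rwa [Nat.card_zmod] at h1
  exact le_antisymm hle hge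

/-- clearing denominators in a relation of coprimality -/
lemma sep_int (K : Type u) [Field K] [NumberField K] (g : (𝓞 K)[X])
    (hsep : (g.map (algebraMap (𝓞 K) K)).Separable) :
    ∃ (a b : (𝓞 K)[X]) (D : 𝓞 K), D ≠ 0 ∧ a * g + b * derivative g = C D := by
  obtain ⟨a, b, hab⟩ := hsep
  obtain ⟨da, hdam, hda⟩ := IsLocalization.integerNormalization_spec (nonZeroDivisors (𝓞 K)) a
  obtain ⟨db, hdbm, hdb⟩ := IsLocalization.integerNormalization_spec (nonZeroDivisors (𝓞 K)) b
  set a' := IsLocalization.integerNormalization (nonZeroDivisors (𝓞 K)) a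
  set b' := IsLocalization.integerNormalization (nonZeroDivisors (𝓞 K)) b
  have hda' : map (algebraMap (𝓞 K) K) a' = C (algebraMap (𝓞 K) K da) * a := by
    rw [hda]
    ext n
    erw [coeff_smul]
    rw [coeff_C_mul, Algebra.smul_def]
  have hdb' : map (algebraMap (𝓞 K) K) b' = C (algebraMap (𝓞 K) K db) * b := by
    rw [hdb]
    ext n
    erw [coeff_smul]
    rw [coeff_C_mul, Algebra.smul_def]
  refine ⟨C db * a', C da * b', da * db, ?_, ?_⟩
  · exact mul_ne_zero (nonZeroDivisors.ne_zero hdam) (nonZeroDivisors.ne_zero hdbm)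
  · apply Polynomial.map_injective (algebraMap (𝓞 K) K) (FaithfulSMul.algebraMap_injective _ _)
    rw [Polynomial.map_add, Polynomial.map_mul, Polynomial.map_mul, Polynomial.map_mul,
      Polynomial.map_mul, hda', hdb', map_C, map_C, map_C, map_mul, C_mul]
    rw [derivative_map] at hab
    linear_combination (C (algebraMap (𝓞 K) K da) * C (algebraMap (𝓞 K) K db)) * hab

theorem partD1 : Pool.Agent.W623.SecC.PartD1.{u} := by
  classical
  intro K _ _ g c hc hsep hσ ε hε
  obtain ⟨σ, hσ⟩ := hσ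
  obtain ⟨L, _, _, _, i, τ, hτi, hτθ, hspl⟩ :=
    exists_L K (g.map (algebraMap (𝓞 K) K)) hsep.ne_zero σ hσ
  let iO : 𝓞 K →+* 𝓞 L := RingOfIntegers.mapRingHom i
  have hiO : ∀ x, ((iO x : 𝓞 L) : L) = i x := fun x => rfl
  have hiinj : Function.Injective iO := by
    intro x y hxy
    have h1 : (iO x : L) = iO y := by rw [hxy]
    rw [hiO, hiO] at h1
    exact RingOfIntegers.coe_injective (i.injective h1)
  have hsmul : ∀ x : 𝓞 L, ((τ • x : 𝓞 L) : L) = τ x := fun x => rfl
  have hτO : ∀ x, τ • (iO x) = iO x := by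
    intro x
    apply RingOfIntegers.ext
    rw [hsmul, hiO, hτi]
  obtain ⟨u, w, D, hD, huw⟩ := sep_int K g hsep
  have hg0 : g ≠ 0 := by
    rintro rfl
    exact hsep.ne_zero (Polynomial.map_zero _)
  set lc := g.leadingCoeff with hlc
  have hlc0 : lc ≠ 0 := leadingCoeff_ne_zero.mpr hg0
  -- the image of `g` over `L`
  set gL : L[X] := (g.map (algebraMap (𝓞 K) K)).map i with hgL
  have hgL0 : gL ≠ 0 := by
    rw [hgL, Ne, Polynomial.map_eq_zero]
    exact hsep.ne_zero
  have hgLeval : ∀ a : 𝓞 K, gL.eval (i a) = i (g.eval a : 𝓞 K) := by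
    intro a
    rw [hgL, Polynomial.map_map, eval_map]
    have h1 := Polynomial.hom_eval₂ g (RingHom.id (𝓞 K)) (i.comp (algebraMap (𝓞 K) K)) a
    rw [RingHom.comp_id] at h1
    exact h1.symm
  have hgLlc : gL.leadingCoeff = i (lc : K) := by
    rw [hgL, leadingCoeff_map, leadingCoeff_map_of_injective
      (FaithfulSMul.algebraMap_injective (𝓞 K) K)]
  have hroot : ∀ θ ∈ gL.roots, gL.eval θ = 0 := fun θ hθ => (mem_roots hgL0).mp hθ
  have hint : ∀ θ ∈ gL.roots, IsIntegral ℤ (i (lc : K) * θ) := by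
    intro θ hθ
    have h1 : (i.comp (algebraMap (𝓞 K) K)).IsIntegralElem
        ((i.comp (algebraMap (𝓞 K) K)) lc * θ) := by
      refine (i.comp (algebraMap (𝓞 K) K)).isIntegralElem_leadingCoeff_mul g θ ?_
      have h2 := hroot θ hθ
      rw [hgL, Polynomial.map_map, eval_map] at h2
      exact h2
    let _ : Algebra (𝓞 K) L := (i.comp (algebraMap (𝓞 K) K)).toAlgebra
    exact isIntegral_trans (R := ℤ) (A := 𝓞 K) _ h1
  have hηex : ∀ θ : L, ∃ y : 𝓞 L, θ ∈ gL.roots → ((y : 𝓞 L) : L) = i (lc : K) * θ := by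
    intro θ
    by_cases hθ : θ ∈ gL.roots
    · exact ⟨⟨_, hint θ hθ⟩, fun _ => rfl⟩
    · exact ⟨0, fun h => absurd h hθ⟩
  choose η hη using hηex
  have hδ : ∀ θ ∈ gL.roots, τ • (η θ) - η θ ≠ 0 := by
    intro θ hθ h0
    have h1 : ((τ • (η θ) - η θ : 𝓞 L) : L) = 0 := by rw [h0]; rfl
    have h2 : ((τ • (η θ) - η θ : 𝓞 L) : L) = i (lc : K) * (τ θ - θ) := by
      have h3 : ((τ • (η θ) - η θ : 𝓞 L) : L) = τ (η θ) - η θ := rfl
      rw [h3, hη θ hθ, map_mul, hτi]
      ring
    rw [h2, mul_eq_zero] at h1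
    rcases h1 with h1 | h1
    · apply hlc0
      apply RingOfIntegers.coe_injective
      apply i.injective
      rw [h1]
      simp
    · refine hτθ θ ?_ (sub_eq_zero.mp h1)
      have h2 := hroot θ hθ
      rw [hgL, eval_map] at h2
      exact h2
  -- the bad primes
  have hE1 : iO (c * 2 * lc * D) ≠ 0 := by
    rw [Ne, map_eq_zero_iff iO hiinj]
    exact mul_ne_zero (mul_ne_zero (mul_ne_zero hc two_ne_zero) hlc0) hD
  obtain ⟨m1, hm1, hm1'⟩ := nz L _ hE1
  choose mθ hmθ hmθ' using fun θ : {θ // θ ∈ gL.roots.toFinset} =>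
    nz L _ (hδ θ.1 (Multiset.mem_toFinset.mp θ.2))
  set m : ℕ := m1 * ∏ θ, mθ θ with hm
  have hmpos : 0 < m := Nat.mul_pos hm1 (Finset.prod_pos fun θ _ => hmθ θ)
  obtain ⟨δ, C', hδpos, hcount⟩ := count L τ m hmpos
  refine many (frobSet L τ m) (fun p hp => hp.1) (diverge _ δ C' hδpos hcount)
    (fun v : HeightOneSpectrum (𝓞 K) => Ideal.absNorm v.asIdeal) _ ?_ ε hε
  intro p hp
  obtain ⟨hpp, hpm, hxp⟩ := hp
  have : Fact p.Prime := ⟨hpp⟩
  have hex : ∃ φ : 𝓞 L →+* AlgebraicClosure (ZMod p), HasFrob p φ τ := by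
    unfold xp at hxp
    rw [dif_pos hpp] at hxp
    by_contra h
    push Not at h
    apply hxp
    rw [Nat.card_eq_zero]
    left
    exact ⟨fun x => h x.1 x.2⟩
  obtain ⟨φ, hφ⟩ := hex
  have hcast : ∀ n : ℕ, n ∣ m → (n : AlgebraicClosure (ZMod p)) ≠ 0 := by
    intro n hn h
    rw [CharP.cast_eq_zero_iff (AlgebraicClosure (ZMod p)) p] at h
    exact hpm (h.trans hn)
  have hφE1 : φ (iO (c * 2 * lc * D)) ≠ 0 := hm1' _ φ (hcast m1 (Dvd.intro _ rfl))
  have hφθ : ∀ θ ∈ gL.roots, φ (τ • (η θ) - η θ) ≠ 0 := by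
    intro θ hθ
    have hθ' : θ ∈ gL.roots.toFinset := Multiset.mem_toFinset.mpr hθ
    refine hmθ' ⟨θ, hθ'⟩ _ φ (hcast _ ?_)
    exact (Finset.dvd_prod_of_mem mθ (Finset.mem_univ _)).trans (Dvd.intro_left _ rfl)
  let ψ : 𝓞 K →+* AlgebraicClosure (ZMod p) := φ.comp iO
  have hψ : ∀ x, ψ x ^ p = ψ x := by
    intro x
    have h1 := hφ (iO x)
    rw [hτO] at h1
    exact h1.symm
  have hnorm := absNorm_ker K p (AlgebraicClosure (ZMod p)) ψ hψ
  have hmem : ∀ x, x ∈ RingHom.ker ψ ↔ φ (iO x) = 0 := fun x => RingHom.mem_ker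
  have hprime : (RingHom.ker ψ).IsPrime := RingHom.ker_isPrime ψ
  have hbot : RingHom.ker ψ ≠ ⊥ := by
    intro h
    rw [h, Ideal.absNorm_bot] at hnorm
    exact hpp.ne_zero hnorm.symm
  have hmax : (RingHom.ker ψ).IsMaximal := hprime.isMaximal hbot
  have hφ4 : φ (iO c) ≠ 0 ∧ φ (iO 2) ≠ 0 ∧ φ (iO lc) ≠ 0 ∧ φ (iO D) ≠ 0 := by
    rw [map_mul, map_mul, map_mul, map_mul, map_mul, map_mul] at hφE1
    refine ⟨?_, ?_, ?_, ?_⟩ <;> intro h <;> apply hφE1 <;> rw [h] <;> ring
  obtain ⟨h4c, h42, h4lc, h4D⟩ := hφ4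
  refine ⟨⟨RingHom.ker ψ, hprime, hbot⟩, ⟨?_, ?_, ?_, ?_, ?_⟩, hnorm⟩
  · exact fun h => h4c ((hmem _).mp h)
  · exact fun h => h42 ((hmem _).mp h)
  · exact fun h => h4lc ((hmem _).mp h)
  · obtain ⟨y, hy⟩ : ∃ y : 𝓞 K, (Ideal.Quotient.mk (RingHom.ker ψ)) (y * D) = 1 := by
      obtain ⟨y, z, hz, hy⟩ := hmax.exists_inv (fun h => h4D ((hmem _).mp h))
      refine ⟨y, ?_⟩
      have h6 := congrArg (Ideal.Quotient.mk (RingHom.ker ψ)) hy
      rw [map_add, Ideal.Quotient.eq_zero_iff_mem.mpr hz, add_zero, map_one] at h6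
      exact h6
    refine ⟨C (Ideal.Quotient.mk _ y) * u.map (Ideal.Quotient.mk _),
      C (Ideal.Quotient.mk _ y) * w.map (Ideal.Quotient.mk _), ?_⟩
    have h5 := congrArg (Polynomial.map (Ideal.Quotient.mk (RingHom.ker ψ))) huw
    rw [Polynomial.map_add, Polynomial.map_mul, Polynomial.map_mul, map_C] at h5
    rw [derivative_map, mul_assoc, mul_assoc, ← mul_add, h5, ← C_mul, ← map_mul, hy, C_1]
  · intro a ha
    obtain ⟨x, rfl⟩ := Ideal.Quotient.mk_surjective a
    rw [eval_map_apply, Ideal.Quotient.eq_zero_iff_mem] at ha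
    have h1 : φ (iO (g.eval x)) = 0 := (hmem _).mp ha
    have hfac : gL = C gL.leadingCoeff * (gL.roots.map fun θ => X - C θ).prod :=
      hspl.eq_prod_roots
    have h2 : iO lc ^ (Multiset.card gL.roots) * iO (g.eval x) =
        iO lc * (gL.roots.map fun θ => iO lc * iO x - η θ).prod := by
      apply RingOfIntegers.coe_injective
      rw [map_mul, map_mul, map_pow, map_multiset_prod, Multiset.map_map]
      have h7 : (algebraMap (𝓞 L) L) (iO (g.eval x)) = gL.eval (i x) := (hgLeval x).symm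
      have h8 : (algebraMap (𝓞 L) L) (iO lc) = i (lc : K) := rfl
      have h9 : gL.eval (i x) = i (lc : K) * (gL.roots.map fun θ => i x - θ).prod := by
        conv_lhs => rw [hfac]
        rw [eval_mul, eval_C, hgLlc, eval_multiset_prod, Multiset.map_map]
        congr 2
        refine Multiset.map_congr rfl fun θ _ => ?_
        simp
      have h10 : gL.roots.map ((algebraMap (𝓞 L) L) ∘ fun θ => iO lc * iO x - η θ) =
          gL.roots.map (fun θ => i (lc : K) * (i x - θ)) := by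
        refine Multiset.map_congr rfl fun θ hθ => ?_
        have h11 := hη θ hθ
        change (algebraMap (𝓞 L) L) (iO lc * iO x - η θ) = _
        rw [map_sub, map_mul, h8]
        change i (lc : K) * i x - ((η θ : 𝓞 L) : L) = _
        rw [h11]
        ring
      rw [h7, h8, h9, h10, Multiset.prod_map_mul, Multiset.map_const', Multiset.prod_replicate]
      ring
    have h3 := congrArg φ h2
    rw [map_mul, map_mul, h1, mul_zero, map_multiset_prod, Multiset.map_map] at h3
    have h4 : ((gL.roots.map (φ ∘ fun θ => iO lc * iO x - η θ))).prod = 0 := by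
      rcases mul_eq_zero.mp h3.symm with h | h
      · exact absurd h h4lc
      · exact h
    rw [Multiset.prod_eq_zero_iff, Multiset.mem_map] at h4
    obtain ⟨θ, hθ, h5⟩ := h4
    have h6 : φ (iO (lc * x)) = φ (η θ) := by
      have h7 : φ (iO lc * iO x - η θ) = 0 := h5
      rw [map_sub, sub_eq_zero] at h7
      rw [map_mul iO, h7]
    apply hφθ θ hθ
    rw [map_sub, hφ (η θ), ← h6]
    have h8 := hψ (lc * x)
    change φ (iO (lc * x)) ^ p = φ (iO (lc * x)) at h8
    rw [h8, sub_self]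

end Pool.Agent.W723.SecC
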